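import Pool.Agent.Hhelper59.SepCont

set_option autoImplicit false

open Topology Set TopologicalSpace Filter
open Pool.Agent.Hhelper59

namespace Pool.Agent.Results.MP_8a822d_gt.CrossUniform

universe u v

/-- There is a Rosenthal compact `K` which embeds into `S_cru(X × Y)` for no pair of separable (in
particular, no pair of Polish) spaces `X`, `Y`. -/
theorem result : ∃ (K : Type) (_ : TopologicalSpace K), IsRosenthalCompact K ∧
    ∀ (X : Type u) (Y : Type v) [TopologicalSpace X] [TopologicalSpace Y]
      [SeparableSpace X] [SeparableSpace Y],
      ¬ ∃ e : K → SepCont X Y, @IsEmbedding K (SepCont X Y) _ (crossUniform X Y) e := by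
  refine ⟨AC, inferInstance, isRosenthalCompact_AC, ?_⟩
  intro X Y _ _ _ _
  rintro ⟨e, he⟩
  have : CompactSpace AC := isCompact_iff_compactSpace.1 isCompact_AC
  exact not_secondCountable_AC (secondCountable_of_embedding (crossUniform X Y)
    (fun q => continuous_eval_crossUniform q) e he)

end Pool.Agent.Results.MP_8a822d_gt.CrossUniform
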